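import Pool.Agent.Q253.NF.Stm2
import Pool.Agent.Q92.AR.All

/-!
# Project NF (helper253), job CHD: the L-functions of the linear characters of Galois groups
-/

set_option autoImplicit false
set_option linter.unusedSectionVars false

namespace Pool.Agent.Q262.NF

open Filter Topology Complex NumberField IsDedekindDomain
open Pool.Agent.Q253.NF
open Pool.Agent.Q92.AR (Unramified frob frob_spec Continues LP LP_compare lterm Pos Dv prin Ray Ram art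
  art_single norm_char mem_finite recip)
open Pool.Agent.Q84.AR (psi psi_apply dv dv_prime dv_span cop_v hasSum_dbl)
open Pool.Agent.Y773 (LI)

section
variable {F : Type} [Field F] [NumberField F]

open Classical in
/-- the trivial character of the ideals -/
noncomputable def triv (F : Type) [Field F] [NumberField F] : Ideal (𝓞 F) →*₀ ℂ where
  toFun 𝔞 := if 𝔞 = ⊥ then 0 else 1
  map_zero' := if_pos rfl
  map_one' := if_neg (by
    rw [Ideal.one_eq_top]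
    exact top_ne_bot)
  map_mul' 𝔞 𝔟 := by
    by_cases h1 : 𝔞 = ⊥
    · rw [if_pos h1, zero_mul, if_pos]
      rw [h1]
      exact zero_mul 𝔟
    · by_cases h2 : 𝔟 = ⊥
      · rw [if_pos h2, mul_zero, if_pos]
        rw [h2]
        exact mul_zero 𝔞
      · rw [if_neg h1, if_neg h2, mul_one, if_neg]
        exact mul_ne_zero h1 h2

theorem triv_apply {𝔞 : Ideal (𝓞 F)} (h : 𝔞 ≠ ⊥) : triv F 𝔞 = 1 := by
  classical
  exact if_neg h

theorem triv_prim : Prim (⊤ : Ideal (𝓞 F)) (fun _ => 0) (triv F) where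
  ne_bot := top_ne_bot
  e_le _ := Nat.zero_le _
  e_complex _ _ := rfl
  supp 𝔞 h := by
    rw [triv_apply h]
    constructor
    · intro _
      exact Ideal.isCoprime_iff_sup_eq.2 (by simp)
    · intro _
      exact one_ne_zero
  sig x hx _ := by
    rw [triv_apply (by rwa [Ne, Ideal.span_singleton_eq_bot])]
    simp
  prim 𝔤 h1 h2 := by
    exfalso
    apply h2
    rw [← Ideal.one_eq_top] at h1 ⊢
    exact Ideal.isUnit_iff.1 (isUnit_of_dvd_one h1) |>.trans Ideal.one_eq_top.symm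

/-- the L-function of a primitive character as an Euler product -/
theorem LI_eq_LP {ψ : Ideal (𝓞 F) →*₀ ℂ} (hψ : ∀ 𝔞, ‖ψ 𝔞‖ ≤ 1) {s : ℂ} (hs : 1 < s.re) :
    LI ψ s = LP (Set.univ : Set (HeightOneSpectrum (𝓞 F))) (fun v => ψ v.asIdeal) s := by
  classical
  rw [Pool.Agent.Y772.DK.LI_eq_exp _ hψ hs, ← (hasSum_dbl hψ hs).tsum_eq]
  unfold LP
  congr 1
  refine tsum_congr fun x => ?_
  unfold lterm
  rw [if_pos (Set.mem_univ _)]

theorem prim_norm {𝔣 : Ideal (𝓞 F)} {e : InfinitePlace F → ℕ} {ψ : Ideal (𝓞 F) →*₀ ℂ}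
    (h : Prim 𝔣 e ψ) : ∀ 𝔞, ‖ψ 𝔞‖ ≤ 1 :=
  (Pool.Agent.Q84.AR.cont_prim h.ne_bot h.e_le h.e_complex h.supp h.sig h.prim).1

variable {M : Type} [Field M] [NumberField M] [Algebra F M] [IsGalois F M]

/-- a linear character of the Galois group is a primitive ray class character -/
theorem exists_prim (ψ : (M ≃ₐ[F] M) →* ℂˣ) : ∃ (N : ℕ) (𝔣 : Ideal (𝓞 F))
    (e : InfinitePlace F → ℕ) (ψ' : Ideal (𝓞 F) →*₀ ℂ), N ≠ 0 ∧ Prim 𝔣 e ψ' ∧
    ∀ v : HeightOneSpectrum (𝓞 F), (N : 𝓞 F) ∉ v.asIdeal →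
      ((ψ (frob M v) : ℂˣ) : ℂ) = ψ' v.asIdeal := by
  classical
  obtain ⟨N, hN, -, hray⟩ := recip F M ψ
  obtain ⟨𝔪, h𝔪⟩ : ∃ 𝔪 : Ideal (𝓞 F), 𝔪 = Ideal.span {(N : 𝓞 F)} := ⟨_, rfl⟩
  have hm0 : 𝔪 ≠ ⊥ := by
    rw [h𝔪, Ne, Ideal.span_singleton_eq_bot]
    exact_mod_cast hN
  have hpsi : ∀ 𝔞, psi N (art ψ) 𝔞 = if 𝔞 ≠ ⊥ ∧ IsCoprime 𝔞 𝔪 then
      (((art ψ (dv 𝔞)).toMul : ℂˣ) : ℂ) else 0 := by
    intro 𝔞
    rw [psi_apply, h𝔪]
  obtain ⟨𝔣, e, ψ', hdvd, hne, hele, hecx, hsupp, hsig, hprim, heq⟩ :=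
    Pool.Agent.Q264.AR.prim F 𝔪 (psi N (art ψ)) hm0 (by
    intro 𝔞 h0
    rw [hpsi]
    constructor
    · intro h
      by_contra h1
      exact h (if_neg fun h2 => h1 h2.2)
    · intro h
      rw [if_pos ⟨h0, h⟩]
      exact Units.ne_zero _) (by
    intro x hx0 hx1 hxp
    have hx0F : (x : F) ≠ 0 := by
      intro h
      exact hx0 (by exact_mod_cast h)
    have h1 : IsCoprime (Ideal.span {x}) 𝔪 := by
      rw [Ideal.isCoprime_iff_exists]
      refine ⟨x, Ideal.mem_span_singleton_self _, -(x - 1), 𝔪.neg_mem hx1, by ring⟩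
    rw [hpsi, if_pos ⟨by rwa [Ne, Ideal.span_singleton_eq_bot], h1⟩,
      dv_span (Units.mk0 (x : F) hx0F) rfl, hray]
    · rfl
    · refine ⟨?_, ?_⟩
      · intro v hv
        rw [Units.val_mk0]
        rw [h𝔪] at hx1
        obtain ⟨c, hc⟩ := Ideal.mem_span_singleton.1 hx1
        have h2 : (x : F) - 1 = (N : F) * (c : F) := by
          have := congrArg (algebraMap (𝓞 F) F) hc
          rw [map_sub, map_one, map_mul, map_natCast] at this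
          exact this
        rw [h2, map_mul]
        calc v.valuation F (N : F) * v.valuation F (c : F) ≤ v.valuation F (N : F) * 1 :=
              mul_le_mul' le_rfl (v.valuation_le_one _)
          _ = _ := mul_one _
      · rw [Units.val_mk0]
        exact hxp)
  refine ⟨N, 𝔣, e, ψ', hN, ⟨hne, hele, hecx, hsupp, hsig, hprim⟩, fun v hv => ?_⟩
  have hc : IsCoprime v.asIdeal 𝔪 := by
    rw [h𝔪]
    exact (cop_v N v).2 hv
  rw [heq _ hc, hpsi, if_pos ⟨v.ne_bot, hc⟩, dv_prime, art_single, one_smul]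
  rfl

/-- a linear character which is trivial on almost all Frobenius elements is trivial -/
theorem eq_one_of_frob {ψ : (M ≃ₐ[F] M) →* ℂˣ} {N : ℕ} (hN : N ≠ 0)
    (h : ∀ v : HeightOneSpectrum (𝓞 F), (N : 𝓞 F) ∉ v.asIdeal → ((ψ (frob M v) : ℂˣ) : ℂ) = 1) :
    ψ = 1 := by
  ext g
  obtain ⟨v, hv, hur, hg⟩ := Pool.Agent.Q14.AR.cheb F M g _ (mem_finite (F := F) hN)
  have h1 : ψ g = ψ (frob M v) := Pool.Agent.Q125.AR.chi_frob hur hg (frob_spec v) ψ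
  rw [h1, h v hv]
  rfl

/-- the primitive character with triviality -/
theorem exists_prim' (ψ : (M ≃ₐ[F] M) →* ℂˣ) : ∃ (N : ℕ) (𝔣 : Ideal (𝓞 F))
    (e : InfinitePlace F → ℕ) (ψ' : Ideal (𝓞 F) →*₀ ℂ), N ≠ 0 ∧ Prim 𝔣 e ψ' ∧
    (∀ v : HeightOneSpectrum (𝓞 F), (N : 𝓞 F) ∉ v.asIdeal →
      ((ψ (frob M v) : ℂˣ) : ℂ) = ψ' v.asIdeal) ∧ ((∀ 𝔞 : Ideal (𝓞 F), 𝔞 ≠ ⊥ → ψ' 𝔞 = 1) ↔ ψ = 1) := by
  by_cases h1 : ψ = 1
  · refine ⟨1, ⊤, _, triv F, one_ne_zero, triv_prim, fun v _ => ?_, fun _ => h1,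
      fun _ 𝔞 h => triv_apply h⟩
    rw [triv_apply v.ne_bot, h1]
    rfl
  · obtain ⟨N, 𝔣, e, ψ', hN, hP, h⟩ := exists_prim ψ
    refine ⟨N, 𝔣, e, ψ', hN, hP, h, fun h2 => ?_, fun h2 => absurd h2 h1⟩
    exact eq_one_of_frob hN fun v hv => by rw [h v hv, h2 _ v.ne_bot]

end

theorem norm_pow_le {z : ℂ} (hz : ‖z‖ ≤ 1) (n : ℕ) : ‖z ^ n‖ ≤ 1 := by
  rw [norm_pow]
  exact pow_le_one₀ (norm_nonneg _) hz

/-- **Job CHD.** -/
theorem chd : S_CHD := by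
  intro hLT hRAY hORD hRED F M _ _ _ _ _ _ ψ
  classical
  obtain ⟨N, 𝔣, e, ψ', hN, hP, hfr, htr⟩ := exists_prim' ψ
  obtain ⟨D, hD⟩ := hRAY hLT F 𝔣 e ψ' hP
  have hn1 := prim_norm hP
  have hχ : ∀ w : HeightOneSpectrum (𝓞 F), ‖((ψ (frob M w) : ℂˣ) : ℂ)‖ ≤ 1 :=
    fun w => (norm_char ψ _).le
  have hχ' : ∀ w : HeightOneSpectrum (𝓞 F), ‖ψ' w.asIdeal‖ ≤ 1 := fun w => hn1 _
  obtain ⟨Q, hQ⟩ : ∃ Q : Set (HeightOneSpectrum (𝓞 F)), Q = {v | (N : 𝓞 F) ∉ v.asIdeal} := ⟨_, rfl⟩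
  have hQc : Qᶜ.Finite := by
    refine (mem_finite (F := F) hN).subset fun v hv => ?_
    rw [hQ] at hv
    exact not_not.1 hv
  have hQe : ∀ v ∈ Q, ((ψ (frob M v) : ℂˣ) : ℂ) = ψ' v.asIdeal := by
    intro v hv
    rw [hQ] at hv
    exact hfr v hv
  refine ⟨D, ?_, fun P hPf => ?_, fun P hPf f hf s hs => ?_⟩
  · rw [hD.p]
    by_cases h1 : ψ = 1
    · rw [if_pos (htr.2 h1), if_pos h1]
    · rw [if_neg (fun h => h1 (htr.1 h)), if_neg h1]
  · obtain ⟨C1, hC1⟩ := hRED F P Q (fun w n => ((ψ (frob M w) : ℂˣ) : ℂ) ^ (n + 1))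
      (fun w n => ψ' w.asIdeal ^ (n + 1)) 1 (hQc.subset fun v hv => hv.2)
      (hPf.subset fun v hv => hv.2) (fun v n => norm_pow_le (hχ v) _)
      (fun v n => norm_pow_le (hχ' v) _) (fun v hv n => by
        show ((ψ (frob M v) : ℂˣ) : ℂ) ^ (n + 1) = ψ' v.asIdeal ^ (n + 1)
        rw [hQe v hv.2])
    obtain ⟨C2, hC2⟩ := hRED F Q Set.univ (fun w n => ψ' w.asIdeal ^ (n + 1))
      (fun w n => ψ' w.asIdeal ^ (n + 1)) 1 (Set.finite_empty.subset fun v hv => hv.2 (Set.mem_univ v))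
      (hQc.subset fun v hv => hv.2) (fun v n => norm_pow_le (hχ' v) _)
      (fun v n => norm_pow_le (hχ' v) _) (fun v _ n => rfl)
    refine ⟨C1 + C2, fun u hu => ?_⟩
    rw [hD.E]
    calc _ ≤ ‖ks P (fun w n => ((ψ (frob M w) : ℂˣ) : ℂ) ^ (n + 1)) u -
          ks Q (fun w n => ψ' w.asIdeal ^ (n + 1)) u‖ +
          ‖ks Q (fun w n => ψ' w.asIdeal ^ (n + 1)) u -
            ks Set.univ (fun w n => ψ' w.asIdeal ^ (n + 1)) u‖ := norm_sub_le_norm_sub_add_norm_sub _ _ _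
      _ ≤ C1 * Real.exp (-(u / 4)) + C2 * Real.exp (-(u / 4)) := add_le_add (hC1 u hu) (hC2 u hu)
      _ = (C1 + C2) * Real.exp (-(u / 4)) := by ring
  · obtain ⟨⟨g, hg⟩, hord⟩ := hORD F 𝔣 e ψ' D hP hD
    obtain ⟨E1, hE1m, hE1, hE1a⟩ := LP_compare (P := P) (P' := Q)
      (χ := fun w => ((ψ (frob M w) : ℂˣ) : ℂ)) (χ' := fun w => ψ' w.asIdeal)
      (hQc.subset fun v hv => hv.2) (hPf.subset fun v hv => hv.2) hχ hχ' (fun v hv => hQe v hv.2)
    obtain ⟨E2, hE2m, hE2, hE2a⟩ := LP_compare (P := Q) (P' := Set.univ)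
      (χ := fun w => ψ' w.asIdeal) (χ' := fun w => ψ' w.asIdeal)
      (Set.finite_empty.subset fun v hv => hv.2 (Set.mem_univ v)) (hQc.subset fun v hv => hv.2)
      hχ' hχ' (fun v _ => rfl)
    have h1 : Continues (fun z => E1 z * E2 z * g z) (LP P (fun w => ((ψ (frob M w) : ℂˣ) : ℂ))) := by
      refine ⟨fun z hz => ((hE1m z hz).fun_mul (hE2m z hz)).fun_mul (hg.1 z hz), fun z hz => ?_⟩
      show E1 z * E2 z * g z = _
      rw [hE1 z hz, hE2 z hz, hg.2 z hz, LI_eq_LP hn1 hz, mul_assoc]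
    rw [hf.order_eq h1 (fun _ _ => rfl) s, ← hord g hg s hs]
    have h2 : AnalyticAt ℂ (fun z => E1 z * E2 z) s := (hE1a s hs).1.fun_mul (hE2a s hs).1
    have h3 : meromorphicOrderAt (fun z => E1 z * E2 z) s = 0 := by
      rw [h2.meromorphicOrderAt_eq]
      have h4 : analyticOrderAt (fun z => E1 z * E2 z) s = 0 :=
        h2.analyticOrderAt_eq_zero.2 (mul_ne_zero (hE1a s hs).2 (hE2a s hs).2)
      rw [h4]
      rfl
    have h5 : (fun z => E1 z * E2 z * g z) = (fun z => E1 z * E2 z) * g := rfl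
    rw [h5, meromorphicOrderAt_mul h2.meromorphicAt (hg.1 s (Set.mem_univ s)), h3, zero_add]

end Pool.Agent.Q262.NF
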